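import Mathlib

section

set_option autoImplicit false
open Polynomial Finset

namespace Pool.Agent.MP_dcfa1b_co.Sq

variable {F : Type*} [Field F] [DecidableEq F]

/-- the `N`-th roots of unity -/
noncomputable def mu (F : Type*) [Field F] (N : ℕ) : Finset F := nthRootsFinset N (1 : F)

/-- the `N`-th roots of unity other than `1` -/
noncomputable def UU (F : Type*) [Field F] [DecidableEq F] (N : ℕ) : Finset F := (mu F N).erase 1

omit [DecidableEq F] in
lemma mem_mu {N : ℕ} (hN : 0 < N) {x : F} : x ∈ mu F N ↔ x ^ N = 1 := mem_nthRootsFinset hN 1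

lemma mem_UU {N : ℕ} (hN : 0 < N) {x : F} : x ∈ UU F N ↔ x ^ N = 1 ∧ x ≠ 1 := by
  rw [UU, mem_erase, mem_mu hN, and_comm]

omit [DecidableEq F] in
lemma card_mu {N : ℕ} {ω : F} (hω : IsPrimitiveRoot ω N) : (mu F N).card = N :=
  hω.card_nthRootsFinset

lemma card_UU {N : ℕ} (hN : 0 < N) {ω : F} (hω : IsPrimitiveRoot ω N) :
    (UU F N).card + 1 = N := by
  rw [UU, card_erase_add_one ((mem_mu hN).2 (one_pow _)), card_mu hω]

omit [DecidableEq F] in
lemma ne_zero_of_pow {N : ℕ} (hN : 0 < N) {x : F} (h : x ^ N = 1) : x ≠ 0 := by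
  rintro rfl
  rw [zero_pow hN.ne'] at h
  exact zero_ne_one h

omit [DecidableEq F] in
lemma sum_mu_pow {N : ℕ} (hN : 0 < N) {ω : F} (hω : IsPrimitiveRoot ω N) (k : ℕ) (hk : ¬ N ∣ k) :
    ∑ x ∈ mu F N, x ^ k = 0 := by
  have hω0 : ω ≠ 0 := hω.ne_zero hN.ne'
  have h1 : ∑ x ∈ mu F N, (ω * x) ^ k = ∑ x ∈ mu F N, x ^ k := by
    refine sum_nbij' (fun x => ω * x) (fun y => ω⁻¹ * y) ?_ ?_ ?_ ?_ ?_
    · intro x hx
      rw [mem_mu hN] at hx ⊢
      rw [mul_pow, hx, hω.pow_eq_one, mul_one]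
    · intro x hx
      rw [mem_mu hN] at hx ⊢
      rw [mul_pow, hx, inv_pow, hω.pow_eq_one, inv_one, mul_one]
    · intro x _; field_simp
    · intro x _; field_simp
    · intro x _; rfl
  have h2 : ω ^ k ≠ 1 := fun h => hk ((hω.pow_eq_one_iff_dvd k).1 h)
  simp only [mul_pow, ← mul_sum] at h1
  have h3 : (ω ^ k - 1) * ∑ x ∈ mu F N, x ^ k = 0 := by linear_combination h1
  exact (mul_eq_zero.1 h3).resolve_left (sub_ne_zero.2 h2)

lemma sum_mu_UU {N : ℕ} (hN : 0 < N) (f : F → F) :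
    ∑ x ∈ mu F N, f x = f 1 + ∑ x ∈ UU F N, f x :=
  (add_sum_erase _ _ ((mem_mu hN).2 (one_pow _))).symm

lemma sum_UU_pow {N : ℕ} (hN : 0 < N) {ω : F} (hω : IsPrimitiveRoot ω N) (k : ℕ) (hk : ¬ N ∣ k) :
    ∑ x ∈ UU F N, x ^ k = -1 := by
  have h := sum_mu_pow hN hω k hk
  rw [sum_mu_UU hN, one_pow] at h
  linear_combination h

lemma prod_UU {N : ℕ} (hN : 0 < N) {ω : F} (hω : IsPrimitiveRoot ω N) :
    ∏ x ∈ UU F N, x = (-1) ^ (N + 1) := by
  have h := congrArg (eval 0) (X_pow_sub_one_eq_prod hN hω)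
  simp only [eval_sub, eval_pow, eval_X, eval_one, eval_prod, eval_C, zero_pow hN.ne',
    zero_sub] at h
  rw [prod_neg, hω.card_nthRootsFinset] at h
  change _ = _ * ∏ x ∈ mu F N, x at h
  rw [← mul_prod_erase _ _ ((mem_mu hN).2 (one_pow _)), one_mul] at h
  change _ = _ * ∏ x ∈ UU F N, x at h
  have h2 : ((-1 : F) ^ N) * (-1) ^ N = 1 := by rw [← mul_pow]; simp
  rw [pow_succ]
  linear_combination -(-1 : F) ^ N * h - (∏ x ∈ UU F N, x) * h2

omit [DecidableEq F] in
lemma sum_mu_eval {N : ℕ} (hN : 0 < N) {ω : F} (hω : IsPrimitiveRoot ω N) (P : F[X])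
    (hP : P.natDegree < N) : ∑ x ∈ mu F N, P.eval x = N * P.coeff 0 := by
  simp only [eval_eq_sum_range]
  rw [sum_comm, sum_eq_single 0]
  · simp [card_mu hω]
  · intro j hj hj0
    have := mem_range.1 hj
    rw [← mul_sum, sum_mu_pow hN hω j (fun h => by have := Nat.le_of_dvd (by omega) h; omega),
      mul_zero]
  · simp

/-- multiplicative and symmetric form of the shift property -/
structure Sd (N : ℕ) (φ : F → F) : Prop where
  maps : ∀ x ∈ UU F N, φ x ∈ UU F N
  inj : ∀ x ∈ UU F N, ∀ y ∈ UU F N, φ x = φ y → x = y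
  sid : ∀ a ∈ UU F N, ∀ b ∈ UU F N, ∀ c ∈ UU F N, ∀ d ∈ UU F N, a ≠ b → a * d = c * b →
    φ a * φ d = φ c * φ b → a = c ∨ (d = a ∧ c = b)

lemma Sd.injOn {N : ℕ} {φ : F → F} (h : Sd N φ) : Set.InjOn φ (UU F N) :=
  fun x hx y hy hxy => h.inj x hx y hy hxy

lemma Sd.image {N : ℕ} {φ : F → F} (h : Sd N φ) : (UU F N).image φ = UU F N := by
  apply eq_of_subset_of_card_le
  · intro y hy
    obtain ⟨x, hx, rfl⟩ := mem_image.1 hy
    exact h.maps x hx
  · rw [card_image_of_injOn h.injOn]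

lemma Sd.surj {N : ℕ} {φ : F → F} (h : Sd N φ) : ∀ y ∈ UU F N, ∃ x ∈ UU F N, φ x = y := by
  intro y hy
  rw [← h.image] at hy
  exact mem_image.1 hy

lemma Sd.inverse {N : ℕ} {φ : F → F} (h : Sd N φ) :
    ∃ ψ : F → F, Sd N ψ ∧ (∀ x ∈ UU F N, ψ (φ x) = x) ∧ ∀ y ∈ UU F N, φ (ψ y) = y := by
  have hs := h.surj
  choose! ψ h1 h2 using hs
  have h3 : ∀ x ∈ UU F N, ψ (φ x) = x := fun x hx =>
    h.inj _ (h1 _ (h.maps x hx)) _ hx (h2 _ (h.maps x hx))
  refine ⟨ψ, ⟨h1, fun x hx y hy hxy => ?_, fun a ha b hb c hc d hd hab e1 e2 => ?_⟩, h3, h2⟩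
  · rw [← h2 x hx, ← h2 y hy, hxy]
  · have hab' : ψ a ≠ ψ b := fun hh => hab (by rw [← h2 a ha, ← h2 b hb, hh])
    rcases h.sid _ (h1 a ha) _ (h1 b hb) _ (h1 c hc) _ (h1 d hd) hab' e2
      (by rw [h2 a ha, h2 b hb, h2 c hc, h2 d hd, e1]) with e | ⟨e3, e4⟩
    · left; rw [← h2 a ha, ← h2 c hc, e]
    · right
      exact ⟨by rw [← h2 a ha, ← h2 d hd, e3], by rw [← h2 c hc, ← h2 b hb, e4]⟩

lemma inv_mem_UU {N : ℕ} (hN : 0 < N) {a : F} (ha : a ∈ UU F N) : a⁻¹ ∈ UU F N := by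
  rw [mem_UU hN] at ha ⊢
  exact ⟨by rw [inv_pow, ha.1, inv_one], fun hh => ha.2 (inv_eq_one.1 hh)⟩

lemma UU_ne_zero {N : ℕ} (hN : 0 < N) {a : F} (ha : a ∈ UU F N) : a ≠ 0 :=
  ne_zero_of_pow hN ((mem_UU hN).1 ha).1

lemma mul_mem_UU {N : ℕ} (hN : 0 < N) {a x : F} (ha : a ∈ UU F N)
    (hx : x ∈ (UU F N).erase a⁻¹) : a * x ∈ UU F N := by
  obtain ⟨b1, b2⟩ := mem_erase.1 hx
  rw [mem_UU hN] at ha b2 ⊢
  exact ⟨by rw [mul_pow, ha.1, b2.1, mul_one], fun hh => b1 (eq_inv_of_mul_eq_one_right hh)⟩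

/-- in the row of `a ≠ ±1` exactly one ratio is missing -/
lemma Sd.missing {N : ℕ} (hN : 0 < N) {ω : F} (hω : IsPrimitiveRoot ω N) {φ : F → F}
    (h : Sd N φ) (a : F) (ha : a ∈ UU F N) (ha2 : a ≠ -1) :
    ∃ g ∈ UU F N, g * φ a⁻¹ = (-1) ^ (N + 1) * φ a ∧
      ∑ x ∈ (UU F N).erase a⁻¹, φ (a * x) * (φ x)⁻¹ = -1 - g ∧
      (∀ x ∈ (UU F N).erase a⁻¹, φ (a * x) ≠ g * φ x) ∧
      ∀ b ∈ UU F N, b ≠ g → ∃ x ∈ (UU F N).erase a⁻¹, φ (a * x) = b * φ x := by
  set r : F → F := fun x => φ (a * x) * (φ x)⁻¹ with hr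
  have ha0 := UU_ne_zero hN ha
  have ha1 := ((mem_UU hN).1 ha).2
  have hai := inv_mem_UU hN ha
  have hφ0 : ∀ x ∈ UU F N, φ x ≠ 0 := fun x hx => UU_ne_zero hN (h.maps x hx)
  have hinj : Set.InjOn r ((UU F N).erase a⁻¹) := by
    intro x hx y hy hxy
    have hx' := mem_of_mem_erase hx
    have hy' := mem_of_mem_erase hy
    have x0 := UU_ne_zero hN hx'
    have c1 := hφ0 x hx'
    have c2 := hφ0 y hy'
    rcases h.sid _ (mul_mem_UU hN ha hx) _ hx' _ (mul_mem_UU hN ha hy) _ hy'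
      (fun hh => ha1 (mul_right_cancel₀ x0 (by rw [hh, one_mul]))) (by ring)
      (by
        simp only [hr] at hxy
        field_simp at hxy
        linear_combination hxy) with e | ⟨e1, e2⟩
    · exact mul_left_cancel₀ ha0 e
    · exfalso
      have b1 : a * a = 1 := by
        apply mul_right_cancel₀ x0
        rw [mul_assoc, ← e1, e2, one_mul]
      rcases mul_self_eq_one_iff.1 b1 with b | b
      · exact ha1 b
      · exact ha2 b
  have hsub : ((UU F N).erase a⁻¹).image r ⊆ UU F N := by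
    intro y hy
    obtain ⟨x, hx, rfl⟩ := mem_image.1 hy
    have hx' := mem_of_mem_erase hx
    have c1 := hφ0 x hx'
    have c2 := (mem_UU hN).1 (h.maps _ (mul_mem_UU hN ha hx))
    have c3 := (mem_UU hN).1 (h.maps _ hx')
    rw [mem_UU hN]
    refine ⟨by simp only [hr]; rw [mul_pow, inv_pow, c2.1, c3.1, inv_one, mul_one],
      fun hh => ha1 ?_⟩
    have c4 : φ (a * x) = φ x := by
      simp only [hr] at hh
      field_simp at hh
      exact hh
    have := h.inj _ (mul_mem_UU hN ha hx) _ hx' c4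
    exact mul_right_cancel₀ (UU_ne_zero hN hx') (by rw [this, one_mul])
  obtain ⟨g, hg1, hg2⟩ := exists_eq_insert_iff.2 ⟨hsub, by
    rw [card_image_of_injOn hinj, card_erase_add_one hai]⟩
  have hgU : g ∈ UU F N := by rw [← hg2]; exact mem_insert_self _ _
  refine ⟨g, hgU, ?_, ?_, fun x hx hh => hg1 (mem_image.2 ⟨x, hx, ?_⟩), fun b hb hbg => ?_⟩
  · rw [← prod_UU hN hω]
    have p1 : ∏ y ∈ UU F N, y = g * ∏ x ∈ (UU F N).erase a⁻¹, r x := by
      conv_lhs => rw [← hg2, prod_insert hg1, prod_image hinj]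
    have p0 : ∏ x ∈ UU F N, φ x = ∏ y ∈ UU F N, y := by
      conv_rhs => rw [← h.image, prod_image h.injOn]
    have p2 : φ a⁻¹ * ∏ x ∈ (UU F N).erase a⁻¹, φ x = ∏ y ∈ UU F N, y := by
      rw [mul_prod_erase _ _ hai, p0]
    have p3 : φ a * ∏ x ∈ (UU F N).erase a⁻¹, φ (a * x) = ∏ y ∈ UU F N, y := by
      rw [← p0, ← mul_prod_erase _ _ ha]
      congr 1
      refine prod_nbij' (fun x => a * x) (fun y => a⁻¹ * y) ?_ ?_ ?_ ?_ ?_
      · intro x hx
        refine mem_erase.2 ⟨fun hh => ((mem_UU hN).1 (mem_of_mem_erase hx)).2 ?_,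
          mul_mem_UU hN ha hx⟩
        exact mul_left_cancel₀ ha0 (by rw [hh, mul_one])
      · intro y hy
        refine mem_erase.2 ⟨fun hh => ((mem_UU hN).1 (mem_of_mem_erase hy)).2 ?_,
          mul_mem_UU hN hai (by rw [inv_inv]; exact hy)⟩
        exact mul_left_cancel₀ (inv_ne_zero ha0) (by rw [hh, mul_one])
      · intro x _; field_simp
      · intro x _; field_simp
      · intro x _; rfl
    have p4 : (∏ x ∈ (UU F N).erase a⁻¹, r x) * ∏ x ∈ (UU F N).erase a⁻¹, φ x =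
        ∏ x ∈ (UU F N).erase a⁻¹, φ (a * x) := by
      rw [← prod_mul_distrib]
      refine prod_congr rfl (fun x hx => ?_)
      have c1 := hφ0 x (mem_of_mem_erase hx)
      simp only [hr]
      field_simp
    have p5 : (∏ y ∈ UU F N, y) ≠ 0 := prod_ne_zero_iff.2 (fun y hy => UU_ne_zero hN hy)
    set P := ∏ y ∈ UU F N, y
    set R := ∏ x ∈ (UU F N).erase a⁻¹, r x
    set A := ∏ x ∈ (UU F N).erase a⁻¹, φ x
    set B := ∏ x ∈ (UU F N).erase a⁻¹, φ (a * x)
    have hA : A ≠ 0 := by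
      intro hh
      rw [hh, mul_zero] at p2
      exact p5 p2.symm
    have hR : R ≠ 0 := by
      intro hh
      rw [hh, mul_zero] at p1
      exact p5 p1
    apply mul_right_cancel₀ (mul_ne_zero hR hA)
    linear_combination (g * R) * p2 - P * p1 - P * p3 - P * φ a * p4
  · have hN1 : ¬ N ∣ 1 := by
      intro hh
      have := (mem_UU hN).1 ha
      rw [Nat.dvd_one.1 hh, pow_one] at this
      exact this.2 this.1
    have s1 := sum_UU_pow hN hω 1 hN1
    simp only [pow_one] at s1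
    rw [← hg2, sum_insert hg1, sum_image hinj] at s1
    linear_combination s1
  · have c1 := hφ0 x (mem_of_mem_erase hx)
    simp only [hr]
    rw [hh]
    field_simp
  · rw [← hg2, mem_insert] at hb
    obtain ⟨x, hx, e⟩ := mem_image.1 (hb.resolve_left hbg)
    refine ⟨x, hx, ?_⟩
    have c1 := hφ0 x (mem_of_mem_erase hx)
    rw [← e]
    simp only [hr]
    field_simp

end Pool.Agent.MP_dcfa1b_co.Sq

end

section

set_option autoImplicit false
open Polynomial Finset

namespace Pool.Agent.MP_dcfa1b_co.Sq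

variable {F : Type*} [Field F] [DecidableEq F]

omit [DecidableEq F] in
lemma eval_rev (φ : F[X]) (a : F) (ha : a ≠ 0) :
    φ.reverse.eval a = a ^ φ.natDegree * φ.eval a⁻¹ := by
  letI : Invertible a⁻¹ := invertibleOfNonzero (inv_ne_zero ha)
  have := eval₂_reverse_mul_pow (RingHom.id F) a⁻¹ φ
  rw [invOf_eq_inv, inv_inv] at this
  simp only [eval₂_id] at this
  rw [← this, mul_comm, mul_assoc, ← mul_pow, inv_mul_cancel₀ ha, one_pow, mul_one]

lemma deg_pos {N : ℕ} (hN : 2 < N) {ω : F} (hω : IsPrimitiveRoot ω N) (φ : F[X])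
    (h : Sd N (fun x => φ.eval x)) : 1 ≤ φ.natDegree := by
  by_contra hc
  have h1 := card_UU (by omega) hω
  obtain ⟨x, hx, y, hy, hxy⟩ := one_lt_card.1 (show 1 < (UU F N).card by omega)
  apply hxy
  apply h.inj x hx y hy
  rw [eq_C_of_natDegree_le_zero (p := φ) (by omega)]
  simp

omit [DecidableEq F] in
lemma kappa_sq (N : ℕ) : ((-1 : F) ^ (N + 1)) * (-1) ^ (N + 1) = 1 := by
  rw [← mul_pow]; simp

/-- the normal form of a polynomial of degree below `N / 2 - 1` with the Sidon property -/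
lemma stepA {N : ℕ} {ω : F} (hω : IsPrimitiveRoot ω N) (φ : F[X])
    (h : Sd N (fun x => φ.eval x)) (hd : 2 * φ.natDegree + 2 < N) :
    (N : F) + 1 = 0 ∧ φ.eval 1 = 0 ∧ φ.eval 0 = 1 ∧
      ∀ a : F, a ≠ 0 → a ^ φ.natDegree * φ.eval a⁻¹ = (-1) ^ (N + 1) * φ.eval a := by
  have hN : 0 < N := by omega
  have hd1 := deg_pos (by omega) hω φ h
  have hφ0 : φ ≠ 0 := by rintro rfl; simp at hd1
  have hne : ∀ x ∈ UU F N, φ.eval x ≠ 0 := fun x hx => UU_ne_zero hN (h.maps x hx)
  set d := φ.natDegree with hdd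
  set κ : F := (-1) ^ (N + 1) with hκ
  set v := φ.eval 1 with hv
  let Q : F[X] := ∑ x ∈ UU F N, C (φ.eval x)⁻¹ * φ.comp (C x * X)
  have hQe : ∀ a, Q.eval a = ∑ x ∈ UU F N, φ.eval (a * x) * (φ.eval x)⁻¹ := by
    intro a
    simp only [Q, eval_finset_sum, eval_mul, eval_C, eval_comp, eval_X]
    exact sum_congr rfl (fun x _ => by rw [mul_comm x a, mul_comm])
  have hQd : Q.natDegree ≤ d := by
    refine natDegree_sum_le_of_forall_le _ _ (fun x _ => (natDegree_C_mul_le _ _).trans ?_)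
    refine natDegree_comp_le.trans ?_
    have : (C x * X : F[X]).natDegree ≤ 1 := (natDegree_C_mul_le _ _).trans natDegree_X_le
    calc φ.natDegree * (C x * X : F[X]).natDegree ≤ φ.natDegree * 1 := Nat.mul_le_mul_left _ this
      _ = d := by rw [mul_one]
  have hQ1d : (Q + 1).natDegree ≤ d := by
    refine (natDegree_add_le _ _).trans (max_le hQd ?_)
    simp
  have hrev := reverse_natDegree_le φ
  have key : (Q + 1) * φ.reverse = X ^ d * (C v - C κ * φ) := by
    apply eq_of_natDegree_lt_card_of_eval_eq' _ _ ((UU F N).erase (-1))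
    · intro a ha
      obtain ⟨a2, aU⟩ := mem_erase.1 ha
      obtain ⟨g, -, hg1, hg2, -⟩ := h.missing hN hω a aU a2
      have a0 := UU_ne_zero hN aU
      have hai := inv_mem_UU hN aU
      have b5 := inv_mul_cancel₀ (hne _ hai)
      simp only [eval_mul, eval_add, eval_sub, eval_C, eval_pow, eval_X, eval_one, hQe,
        eval_rev φ a a0]
      rw [← add_sum_erase _ _ hai, hg2, mul_inv_cancel₀ a0, ← hdd, ← hv]
      linear_combination v * a ^ d * b5 - a ^ d * hg1
    · have c1 : ((Q + 1) * φ.reverse).natDegree ≤ 2 * d := natDegree_mul_le.trans (by omega)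
      have c2 : (X ^ d * (C v - C κ * φ)).natDegree ≤ 2 * d := by
        refine natDegree_mul_le.trans ?_
        have c3 : (C v - C κ * φ).natDegree ≤ d := by
          refine (natDegree_sub_le _ _).trans (max_le (by simp) (natDegree_C_mul_le _ _))
        rw [natDegree_X_pow]
        omega
      have c4 := pred_card_le_card_erase (s := UU F N) (a := -1)
      have c5 := card_UU hN hω
      omega
  have cop : IsCoprime ((X : F[X]) ^ d) φ.reverse := by
    apply IsCoprime.pow_left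
    rw [irreducible_X.coprime_iff_not_dvd, X_dvd_iff, coeff_zero_reverse]
    exact leadingCoeff_ne_zero.2 hφ0
  obtain ⟨W, hW⟩ : (X : F[X]) ^ d ∣ Q + 1 := cop.dvd_of_dvd_mul_right ⟨_, key⟩
  have hWd : W.natDegree ≤ 0 := by
    by_cases hW0 : W = 0
    · simp [hW0]
    · rw [hW, natDegree_mul (pow_ne_zero _ X_ne_zero) hW0, natDegree_X_pow] at hQ1d
      omega
  rw [eq_C_of_natDegree_le_zero hWd] at hW
  set w := W.coeff 0
  rw [hW, mul_assoc] at key
  have k2 := mul_left_cancel₀ (pow_ne_zero _ X_ne_zero) key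
  have hw : w = N := by
    have e := congrArg (eval 1) hW
    simp only [eval_add, eval_one, hQe, eval_mul, eval_pow, eval_X, eval_C, one_pow,
      one_mul] at e
    rw [sum_congr rfl (fun x hx => mul_inv_cancel₀ (hne x hx)), sum_const, nsmul_eq_mul,
      mul_one] at e
    have e3 := congrArg (Nat.cast : ℕ → F) (card_UU hN hω)
    push_cast at e3
    rw [← e, e3]
  have hc0 : φ.eval 0 = 1 := by
    have e := congrArg (eval 0) hW
    simp only [eval_add, eval_one, hQe, eval_mul, eval_pow, eval_X, eval_C, zero_mul,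
      zero_pow (show d ≠ 0 by omega), ← mul_sum] at e
    have e2 : ∑ x ∈ UU F N, (φ.eval x)⁻¹ = -1 := by
      have a2 := sum_UU_pow hN hω (N - 1)
        (fun hh => by have := Nat.le_of_dvd (by omega) hh; omega)
      rw [← h.image, sum_image h.injOn] at a2
      rw [← a2]
      refine sum_congr rfl (fun x hx => ?_)
      have b3 := ((mem_UU hN).1 (h.maps x hx)).1
      rw [show N = (N - 1) + 1 by omega, pow_succ] at b3
      exact (eq_inv_of_mul_eq_one_left b3).symm
    rw [e2] at e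
    linear_combination -e
  have m1 : v - 1 = N := by
    have e := sum_mu_eval hN hω φ (by omega)
    rw [sum_mu_UU hN, coeff_zero_eq_eval_zero, hc0] at e
    have a2 := sum_UU_pow hN hω 1 (fun hh => by have := Nat.le_of_dvd (by omega) hh; omega)
    rw [← h.image, sum_image h.injOn] at a2
    simp only [pow_one] at a2
    linear_combination e - a2
  have m2 : v ^ 2 - 1 = N := by
    have e := sum_mu_eval hN hω (φ ^ 2) (by rw [natDegree_pow]; omega)
    rw [sum_mu_UU hN, coeff_zero_eq_eval_zero] at e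
    simp only [eval_pow, hc0] at e
    have a2 := sum_UU_pow hN hω 2 (fun hh => by have := Nat.le_of_dvd (by omega) hh; omega)
    rw [← h.image, sum_image h.injOn] at a2
    linear_combination e - a2
  have hNF : (N : F) ≠ 0 := by
    haveI : NeZero N := ⟨hN.ne'⟩
    exact (hω.neZero').ne
  have hv0 : v = 0 := by
    have : v * (v - 1) = 0 := by linear_combination m2 - m1
    rw [m1] at this
    exact (mul_eq_zero.1 this).resolve_right hNF
  have hN1 : (N : F) + 1 = 0 := by linear_combination hv0 - m1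
  refine ⟨hN1, hv0, hc0, fun a ha => ?_⟩
  have e := congrArg (eval a) k2
  simp only [eval_mul, eval_C, eval_sub, eval_rev φ a ha, ← hdd, hw, hv0] at e
  linear_combination (a ^ d * φ.eval a⁻¹) * hN1 - e

/-- the ratio missing in the row of `a` is `a ^ d` -/
lemma third {N : ℕ} {ω : F} (hω : IsPrimitiveRoot ω N) (φ : F[X])
    (h : Sd N (fun x => φ.eval x)) (hd : 2 * φ.natDegree + 2 < N) (a : F) (ha : a ∈ UU F N)
    (ha2 : a ≠ -1) : a ^ φ.natDegree ≠ 1 ∧
      ∀ x ∈ (UU F N).erase a⁻¹, φ.eval (a * x) ≠ a ^ φ.natDegree * φ.eval x := by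
  have hN : 0 < N := by omega
  obtain ⟨g, hg0, hg1, -, hg3, -⟩ := h.missing hN hω a ha ha2
  have e := (stepA hω φ h hd).2.2.2 a (UU_ne_zero hN ha)
  have : g = a ^ φ.natDegree := by
    apply mul_right_cancel₀ (UU_ne_zero hN (h.maps _ (inv_mem_UU hN ha)))
    rw [hg1, e]
  rw [← this]
  exact ⟨((mem_UU hN).1 hg0).2, hg3⟩

lemma pow_inj {N : ℕ} {ω : F} (hω : IsPrimitiveRoot ω N) (φ : F[X])
    (h : Sd N (fun x => φ.eval x)) (hd : 2 * φ.natDegree + 2 < N) (a : F) (ha : a ^ N = 1)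
    (h1 : a ^ φ.natDegree = 1) : a = 1 := by
  have hN : 0 < N := by omega
  by_contra ha1
  have aU : a ∈ UU F N := (mem_UU hN).2 ⟨ha, ha1⟩
  by_cases ha2 : a = -1
  · subst ha2
    have e := (stepA hω φ h hd).2.2.2 (-1) (UU_ne_zero hN aU)
    rw [h1, pow_succ, ha, inv_neg, inv_one] at e
    have c := UU_ne_zero hN (h.maps _ aU)
    apply ha1
    apply mul_right_cancel₀ c
    linear_combination -e
  · exact (third hω φ h hd a aU ha2).1 h1

lemma coprime_deg {N : ℕ} {ω : F} (hω : IsPrimitiveRoot ω N) (φ : F[X])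
    (h : Sd N (fun x => φ.eval x)) (hd : 2 * φ.natDegree + 2 < N) :
    Nat.Coprime φ.natDegree N := by
  have hN : 0 < N := by omega
  obtain ⟨s, hs⟩ := Nat.gcd_dvd_right φ.natDegree N
  obtain ⟨t, ht⟩ := Nat.gcd_dvd_left φ.natDegree N
  have e : ω ^ s = 1 := by
    apply pow_inj hω φ h hd
    · rw [pow_right_comm, hω.pow_eq_one, one_pow]
    · rw [ht, ← pow_mul, ← mul_assoc, mul_comm s, ← hs, pow_mul, hω.pow_eq_one, one_pow]
  have e2 := (hω.pow_eq_one_iff_dvd s).1 e
  have hs0 : 0 < s := by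
    rcases Nat.eq_zero_or_pos s with h0 | h0
    · rw [h0, mul_zero] at hs; omega
    · exact h0
  have e3 := Nat.le_of_dvd hs0 e2
  have hg : 0 < Nat.gcd φ.natDegree N := Nat.gcd_pos_of_pos_right _ hN
  unfold Nat.Coprime
  generalize Nat.gcd φ.natDegree N = g at *
  by_contra hne
  have : s * 2 ≤ g * s := by rw [mul_comm g]; exact Nat.mul_le_mul_left _ (by omega)
  omega

lemma pow_surj {N k : ℕ} (hN : 0 < N) (hk : Nat.Coprime k N) (y : F) (hy : y ∈ UU F N) :
    ∃ a ∈ UU F N, a ^ k = y := by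
  rw [mem_UU hN] at hy
  by_cases hN1 : N = 1
  · rw [hN1, pow_one] at hy
    exact absurd hy.1 hy.2
  obtain ⟨m, -, hm⟩ := Nat.exists_mul_mod_eq_one_of_coprime hk (by omega)
  have e : (y ^ m) ^ k = y := by
    rw [← pow_mul, mul_comm m, ← Nat.div_add_mod (k * m) N, hm, pow_add, pow_mul, hy.1, one_pow,
      one_mul, pow_one]
  refine ⟨y ^ m, (mem_UU hN).2 ⟨by rw [pow_right_comm, hy.1, one_pow], fun hh => hy.2 ?_⟩, e⟩
  rw [← e, hh, one_pow]

lemma kappa_pow {N : ℕ} {ω : F} (hω : IsPrimitiveRoot ω N) (φ : F[X])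
    (h : Sd N (fun x => φ.eval x)) (hd : 2 * φ.natDegree + 2 < N) :
    ((-1 : F) ^ (N + 1)) ^ φ.natDegree = (-1) ^ (N + 1) := by
  rcases Nat.even_or_odd N with he | ho
  · have c := coprime_deg hω φ h hd
    have : Odd φ.natDegree := by
      rcases Nat.even_or_odd φ.natDegree with h2 | h2
      · exfalso
        have := Nat.dvd_gcd (even_iff_two_dvd.1 h2) (even_iff_two_dvd.1 he)
        rw [c] at this
        omega
      · exact h2
    rw [he.add_one.neg_one_pow, this.neg_one_pow]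
  · rw [ho.add_one.neg_one_pow, one_pow]

/-- the symmetry exchanging `x ^ d` and `φ x` -/
lemma stepC {N : ℕ} {ω : F} (hω : IsPrimitiveRoot ω N) (φ : F[X])
    (h : Sd N (fun x => φ.eval x)) (hd : 2 * φ.natDegree + 2 < N) :
    ∃ bad : F, ∀ u ∈ UU F N, u ≠ bad →
      ∃ w ∈ UU F N, w ^ φ.natDegree = φ.eval u ∧ φ.eval w = u ^ φ.natDegree := by
  have hN : 0 < N := by omega
  obtain ⟨ψ, hψ, i1, i2⟩ := h.inverse
  have anti := (stepA hω φ h hd).2.2.2
  have kp := kappa_pow hω φ h hd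
  have k2 := kappa_sq (F := F) N
  set κ : F := (-1) ^ (N + 1) with hκ
  set d := φ.natDegree with hdd
  have rho : ∀ x ∈ UU F N, φ.eval x ≠ -1 →
      ∃ z ∈ UU F N, φ.eval z = (φ.eval x)⁻¹ ∧ z ^ d * φ.eval x = κ * x ^ d := by
    intro x hx hy2
    have hy := h.maps x hx
    obtain ⟨g, -, hg1, -, -, hg4⟩ := hψ.missing hN hω _ hy hy2
    obtain ⟨a, ha, hay⟩ := pow_surj hN (coprime_deg hω φ h hd) _ hy
    have ha2 : a ≠ -1 := by
      rintro rfl
      rcases neg_one_pow_eq_or F φ.natDegree with e | e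
      · exact ((mem_UU hN).1 hy).2 (hay.symm.trans e)
      · exact hy2 (hay.symm.trans e)
    have hag : a = g := by
      by_contra hne
      obtain ⟨z, hz, e⟩ := hg4 a ha hne
      have hz' := mem_of_mem_erase hz
      have c1 := mul_mem_UU hN hy hz
      have c2 := hψ.maps _ c1
      apply (third hω φ h hd a ha ha2).2 (ψ z)
      · refine mem_erase.2 ⟨fun hh => ((mem_UU hN).1 c2).2 ?_, hψ.maps z hz'⟩
        rw [e, hh, mul_inv_cancel₀ (UU_ne_zero hN ha)]
      · rw [← e, i2 _ c1, i2 _ hz', hay]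
    have hyi := inv_mem_UU hN hy
    refine ⟨ψ (φ.eval x)⁻¹, hψ.maps _ hyi, i2 _ hyi, ?_⟩
    rw [i1 x hx, ← hag] at hg1
    have e := congrArg (fun t => t ^ d) hg1
    simp only [mul_pow] at e
    rw [hay, ← hκ, kp] at e
    linear_combination e
  refine ⟨(ψ (-1))⁻¹, fun u hu hub => ?_⟩
  have u0 := UU_ne_zero hN hu
  have hui := inv_mem_UU hN hu
  obtain ⟨z, hz, e1, e2⟩ := rho u⁻¹ hui (fun hh => hub (by rw [← hh, i1 _ hui, inv_inv]))
  have z0 := UU_ne_zero hN hz
  have c0 := UU_ne_zero hN (h.maps _ hui)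
  have a1 := anti u u0
  have a2 := anti z z0
  have b1 : u ^ d * u⁻¹ ^ d = 1 := by rw [← mul_pow, mul_inv_cancel₀ u0, one_pow]
  have b2 : z ^ d * z⁻¹ ^ d = 1 := by rw [← mul_pow, mul_inv_cancel₀ z0, one_pow]
  have b3 := mul_inv_cancel₀ c0
  rw [e1] at a2
  refine ⟨z⁻¹, inv_mem_UU hN hz, ?_, ?_⟩
  · apply mul_left_cancel₀ (pow_ne_zero d z0)
    rw [b2]
    linear_combination κ * z ^ d * a1 - κ * u ^ d * e2 - κ * κ * b1 - (1 - z ^ d * φ.eval u) * k2
  · apply mul_left_cancel₀ (mul_ne_zero (pow_ne_zero d z0) c0)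
    linear_combination φ.eval u⁻¹ * a2 + κ * b3 - u ^ d * e2 - κ * b1

end Pool.Agent.MP_dcfa1b_co.Sq

end

section

set_option autoImplicit false
open Polynomial Finset

namespace Pool.Agent.MP_dcfa1b_co.Sq

lemma det_deg {F ι : Type*} [Field F] [Fintype ι] [DecidableEq ι] (M : Matrix ι ι F[X])
    (a c : ι → ℕ) (D : ℕ) (h : ∀ i j, M i j ≠ 0 → (M i j).natDegree + a i ≤ c j)
    (hD : ∑ j, c j ≤ D + ∑ i, a i) : M.det.natDegree ≤ D := by
  rw [Matrix.det_apply]
  refine natDegree_sum_le_of_forall_le _ _ (fun σ _ => ?_)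
  rw [Units.smul_def]
  refine (natDegree_smul_le _ _).trans ?_
  by_cases h0 : ∏ i, M (σ i) i = 0
  · rw [h0]; simp
  · have h1 : ∀ i, (M (σ i) i).natDegree + a (σ i) ≤ c i := fun i =>
      h _ _ (fun hh => h0 (prod_eq_zero (mem_univ i) hh))
    have h2 := sum_le_sum (s := univ) (fun i _ => h1 i)
    rw [sum_add_distrib, Equiv.sum_comp σ a] at h2
    have h3 := natDegree_prod_le univ (fun i => M (σ i) i)
    omega

/-- Bezout bound for the resultant of two polynomials of total degree at most `d` -/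
lemma res_deg {F : Type*} [Field F] (A B : F[X][X]) (d : ℕ)
    (hA : ∀ k ≤ d, (A.coeff k).natDegree + k ≤ d) (hB : ∀ k ≤ d, (B.coeff k).natDegree + k ≤ d) :
    (resultant A B d d).natDegree ≤ d * d := by
  unfold resultant
  apply det_deg _ (fun i : Fin (d + d) => (i : ℕ)) (fun j : Fin (d + d) =>
    Fin.addCases (fun j₁ : Fin d => d + (j₁ : ℕ)) (fun j₁ : Fin d => d + (j₁ : ℕ)) j)
  · intro i j hij
    induction j using Fin.addCases with
    | left j =>
      simp only [sylvester, Matrix.of_apply, Fin.addCases_left] at hij ⊢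
      split_ifs at hij ⊢ with hc
      · have := hB (i - j) (by have := hc.2; omega)
        have := hc.1
        omega
      · exact absurd rfl hij
    | right j =>
      simp only [sylvester, Matrix.of_apply, Fin.addCases_right] at hij ⊢
      split_ifs at hij ⊢ with hc
      · have := hA (i - j) (by have := hc.2; omega)
        have := hc.1
        omega
      · exact absurd rfl hij
  · rw [Fin.sum_univ_add, Fin.sum_univ_add]
    simp only [Fin.addCases_left, Fin.addCases_right, Fin.val_castAdd, Fin.val_natAdd,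
      sum_add_distrib, sum_const, card_univ, Fintype.card_fin, smul_eq_mul]
    omega

lemma prod_form {F Ω : Type*} [Field F] [Field Ω] (j : F →+* Ω) (y : Ω) (s : Multiset Ω)
    (h : ∀ z ∈ s, ∃ ζ : F, ζ ≠ 0 ∧ z = j ζ * y) :
    ∃ c : F, c ≠ 0 ∧ s.prod = j c * y ^ Multiset.card s := by
  induction s using Multiset.induction_on with
  | empty => exact ⟨1, one_ne_zero, by simp⟩
  | cons z s ih =>
    obtain ⟨c, hc, e⟩ := ih (fun w hw => h w (Multiset.mem_cons_of_mem hw))
    obtain ⟨ζ, hζ, e2⟩ := h z (Multiset.mem_cons_self _ _)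
    refine ⟨ζ * c, mul_ne_zero hζ hc, ?_⟩
    rw [Multiset.prod_cons, Multiset.card_cons, e, e2, map_mul, pow_succ]
    ring

/-- the curves `Y ^ d = φ(X)` and `φ(Y) = X ^ d` share a component only for
`φ = (1 - X ^ g) ^ r` -/
lemma struct {F Ω : Type*} [Field F] [IsAlgClosed F] [Field Ω] [IsAlgClosed Ω] [Algebra F[X] Ω]
    (hι : Function.Injective (algebraMap F[X] Ω)) (φ : F[X]) (d : ℕ) (hd : φ.natDegree = d)
    (hd1 : 1 ≤ d) (h1 : φ.eval 1 = 0) (y : Ω)
    (hA : aeval y (X ^ d - C φ : F[X][X]) = 0)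
    (hB : aeval y (φ.map C - C (X ^ d) : F[X][X]) = 0) :
    ∃ g r : ℕ, d = g * r ∧ φ = (1 - X ^ g) ^ r := by
  haveI : Module.IsTorsionFree F[X] Ω := (Module.isTorsionFree_iff_algebraMap_injective).2 hι
  set ι := algebraMap F[X] Ω with hιdef
  have hφ0 : φ ≠ 0 := by rintro rfl; simp at hd; omega
  have hyd : y ^ d = ι φ := by
    simp only [map_sub, map_pow, aeval_X, aeval_C] at hA
    exact sub_eq_zero.1 hA
  have hιφ : ι φ ≠ 0 := fun hh => hφ0 (hι (by rw [hh, map_zero]))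
  have y0 : y ≠ 0 := by
    rintro rfl
    rw [zero_pow (by omega)] at hyd
    exact hιφ hyd.symm
  have hint : IsIntegral F[X] y := ⟨_, monic_X_pow_sub_C φ (by omega), hA⟩
  set m := minpoly F[X] y with hm
  have hmm : m.Monic := minpoly.monic hint
  set g := m.natDegree with hg
  have hg1 : 0 < g := minpoly.natDegree_pos hint
  have hmA : m ∣ X ^ d - C φ := minpoly.isIntegrallyClosed_dvd hint hA
  have hmB : m ∣ φ.map C - C (X ^ d) := minpoly.isIntegrallyClosed_dvd hint hB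
  let j : F →+* Ω := ι.comp C
  have hroots : ∀ z ∈ (m.map ι).roots, ∃ ζ : F, ζ ≠ 0 ∧ z = j ζ * y := by
    intro z hz
    have hz1 : aeval z m = 0 := by
      have := (mem_roots (hmm.map ι).ne_zero).1 hz
      rwa [IsRoot, eval_map_algebraMap] at this
    have hz2 : z ^ d = ι φ := by
      have := aeval_eq_zero_of_dvd_aeval_eq_zero hmA hz1
      simp only [map_sub, map_pow, aeval_X, aeval_C] at this
      exact sub_eq_zero.1 this
    have hz3 : (z / y) ^ d = 1 := by rw [div_pow, hz2, hyd, div_self hιφ]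
    letI : Algebra F Ω := j.toAlgebra
    have hi : IsIntegral F (z / y) :=
      IsIntegral.of_pow (n := d) (by omega) (by rw [hz3]; exact isIntegral_one)
    obtain ⟨ζ, hζ⟩ := minpoly.mem_range_of_degree_eq_one F _
      (IsAlgClosed.degree_eq_one_of_irreducible F (minpoly.irreducible hi))
    have hζ' : j ζ = z / y := hζ
    refine ⟨ζ, ?_, by rw [hζ', div_mul_cancel₀ _ y0]⟩
    rintro rfl
    rw [← hζ', map_zero, zero_pow (by omega)] at hz3
    exact zero_ne_one hz3
  obtain ⟨c, hc, e⟩ := prod_form j y _ hroots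
  have hsp : (m.map ι).Splits := IsAlgClosed.splits _
  have e2 := hsp.coeff_zero_eq_prod_roots_of_monic (hmm.map ι)
  rw [e, ← hsp.natDegree_eq_card_roots, hmm.natDegree_map, coeff_map, ← hg] at e2
  obtain ⟨ψ, hψ⟩ : ∃ ψ : F[X], y ^ g = ι ψ := by
    refine ⟨(-1) ^ g * C c⁻¹ * m.coeff 0, ?_⟩
    have b1 : ι (C c⁻¹) * j c = 1 := by
      change j c⁻¹ * j c = 1
      rw [← map_mul, inv_mul_cancel₀ hc, map_one]
    have b2 : ((-1 : Ω) ^ g) * (-1) ^ g = 1 := by rw [← mul_pow]; simp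
    rw [map_mul, map_mul, map_pow, map_neg, map_one, e2]
    linear_combination (-y ^ g) * b2 - ((-1) ^ g * (-1) ^ g * y ^ g) * b1
  have hmeq : m = X ^ g - C ψ := by
    symm
    apply eq_of_monic_of_dvd_of_natDegree_le hmm (monic_X_pow_sub_C ψ hg1.ne')
    · apply minpoly.isIntegrallyClosed_dvd hint
      simp only [map_sub, map_pow, aeval_X, aeval_C]
      exact sub_eq_zero.2 hψ
    · rw [natDegree_X_pow_sub_C]
  have hs : d % g = 0 := by
    by_contra hne
    have b1 : m ∣ C (ψ ^ (d / g)) * X ^ (d % g) - C φ := by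
      apply minpoly.isIntegrallyClosed_dvd hint
      simp only [map_sub, map_mul, map_pow, aeval_X, aeval_C]
      rw [← hιdef, ← hψ, ← hyd, ← pow_mul, ← pow_add, Nat.div_add_mod, sub_self]
    have b2 : (C (ψ ^ (d / g)) * X ^ (d % g) - C φ : F[X][X]) ≠ 0 := by
      intro hh
      have := congrArg (fun P => coeff P 0) hh
      simp only [coeff_sub, coeff_C_mul, coeff_X_pow, coeff_C_zero, coeff_zero] at this
      rw [if_neg (Ne.symm hne), mul_zero, zero_sub, neg_eq_zero] at this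
      exact hφ0 this
    have b3 := natDegree_le_of_dvd b1 b2
    have b4 : (C (ψ ^ (d / g)) * X ^ (d % g) - C φ : F[X][X]).natDegree ≤ d % g := by
      refine (natDegree_sub_le _ _).trans (max_le (natDegree_C_mul_X_pow_le _ _) (by simp))
    have := Nat.mod_lt d hg1
    omega
  obtain ⟨r, hr⟩ := Nat.dvd_of_mod_eq_zero hs
  have hφψ : φ = ψ ^ r := by
    apply hι
    rw [map_pow, ← hψ, ← pow_mul, ← hr, hyd]
  have hr0 : 0 < r := by
    rcases Nat.eq_zero_or_pos r with h0 | h0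
    · rw [h0] at hr; omega
    · exact h0
  have hψd : ψ.natDegree = g := by
    rw [hφψ, natDegree_pow, hr, mul_comm] at hd
    exact Nat.eq_of_mul_eq_mul_right hr0 hd
  have hdv : 1 - ψ ∣ X ^ d := by
    have := eval_dvd (x := (1 : F[X])) hmB
    rw [hmeq] at this
    simp only [eval_sub, eval_pow, eval_X, eval_C, one_pow] at this
    rw [eval_map, ← C_1, eval₂_at_apply, h1, map_zero, zero_sub, dvd_neg, C_1] at this
    exact this
  obtain ⟨i, -, u, hu⟩ := (dvd_prime_pow prime_X d).1 hdv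
  obtain ⟨t, ht1, ht2⟩ := Polynomial.isUnit_iff.1 u⁻¹.isUnit
  have e3 : 1 - ψ = C t * X ^ i := by
    rw [← hu, ht2, mul_comm, mul_assoc, Units.mul_inv, mul_one]
  have e4 : i = g := by
    have b1 := congrArg natDegree e3
    rw [natDegree_C_mul_X_pow _ _ ht1.ne_zero, ← C_1, ← neg_sub, natDegree_neg,
      natDegree_sub_C, hψd] at b1
    exact b1.symm
  have e5 : t = 1 := by
    have b1 : ψ.eval 1 = 0 := by
      rw [hφψ, eval_pow] at h1
      exact pow_eq_zero_iff hr0.ne' |>.1 h1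
    have b2 := congrArg (eval 1) e3
    simp only [eval_sub, eval_one, eval_mul, eval_C, eval_pow, eval_X, one_pow, b1] at b2
    linear_combination -b2
  refine ⟨g, r, hr, ?_⟩
  rw [e4, e5, C_1, one_mul] at e3
  rw [hφψ, ← e3, sub_sub_cancel]

/-- more than `d ^ 2` common points force the common component -/
lemma stepE {F : Type*} [Field F] [IsAlgClosed F] (φ : F[X]) (d : ℕ) (hd : φ.natDegree = d)
    (hd1 : 1 ≤ d) (h1 : φ.eval 1 = 0) (S : Finset F) (hS : d * d < S.card)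
    (h : ∀ u ∈ S, ∃ w, w ^ d = φ.eval u ∧ φ.eval w = u ^ d) :
    ∃ g r : ℕ, d = g * r ∧ φ = (1 - X ^ g) ^ r := by
  set A : F[X][X] := X ^ d - C φ with hA
  set B : F[X][X] := φ.map C - C (X ^ d) with hB
  have dA : A.natDegree = d := natDegree_X_pow_sub_C
  have dB : B.natDegree = d := by
    rw [hB, natDegree_sub_C, natDegree_map_eq_of_injective C_injective, hd]
  have hR : resultant A B d d = 0 := by
    apply eq_zero_of_natDegree_lt_card_of_eval_eq_zero' _ S
    · intro u hu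
      obtain ⟨w, e1, e2⟩ := h u hu
      obtain ⟨p, q, -, -, e⟩ := exists_mul_add_mul_eq_C_resultant A B dA.le dB.le
        (Or.inl (by omega))
      have e3 := congrArg (fun P => eval u (eval (C w) P)) e
      simp only [hA, hB, eval_add, eval_mul, eval_sub, eval_pow, eval_X, eval_C, eval_map,
        eval₂_at_apply, e1, e2, sub_self, zero_mul, add_zero] at e3
      exact e3.symm
    · refine lt_of_le_of_lt (res_deg A B d (fun k hk => ?_) (fun k hk => ?_)) hS
      · simp only [hA, coeff_sub, coeff_X_pow, coeff_C]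
        by_cases k0 : k = 0
        · rw [if_neg (by omega), if_pos k0, zero_sub, natDegree_neg]; omega
        · rw [if_neg k0, sub_zero]
          split_ifs <;> simpa using hk
      · simp only [hB, coeff_sub, coeff_map, coeff_C]
        by_cases k0 : k = 0
        · rw [if_pos k0, ← neg_sub, natDegree_neg, natDegree_sub_C, natDegree_X_pow]; omega
        · rw [if_neg k0, sub_zero, natDegree_C]; omega
  let Ω := AlgebraicClosure (FractionRing F[X])
  have hι : Function.Injective (algebraMap F[X] Ω) := by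
    rw [IsScalarTower.algebraMap_eq F[X] (FractionRing F[X]) Ω]
    exact (algebraMap (FractionRing F[X]) Ω).injective.comp (IsFractionRing.injective _ _)
  have hnc : ¬ IsCoprime (A.map (algebraMap F[X] Ω)) (B.map (algebraMap F[X] Ω)) := by
    intro hc
    apply resultant_ne_zero _ _ hc
    rw [natDegree_map_eq_of_injective hι, natDegree_map_eq_of_injective hι, dA, dB,
      resultant_map_map, hR, map_zero]
  rw [isCoprime_iff_aeval_ne_zero_of_isAlgClosed Ω Ω] at hnc
  push Not at hnc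
  obtain ⟨y, e1, e2⟩ := hnc
  rw [coe_aeval_eq_eval, eval_map_algebraMap] at e1 e2
  exact struct hι φ d hd hd1 h1 y e1 e2

end Pool.Agent.MP_dcfa1b_co.Sq

end

section

set_option autoImplicit false
open Polynomial Finset

namespace Pool.Agent.MP_dcfa1b_co.Sq

variable {F : Type*} [Field F] [DecidableEq F]

omit [DecidableEq F] in
lemma eq_one_of_cop {N r : ℕ} (hc : Nat.Coprime r N) {z : F} (h1 : z ^ r = 1) (h2 : z ^ N = 1) :
    z = 1 := by
  have := pow_gcd_eq_one.2 ⟨h1, h2⟩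
  rwa [hc, pow_one] at this

lemma card_UU_le {r : ℕ} (hr : 0 < r) : (UU F r).card + 1 ≤ r := by
  rw [UU, card_erase_add_one ((mem_mu hr).2 (one_pow _)), mu, nthRootsFinset_def]
  exact (Multiset.toFinset_card_le _).trans (card_nthRoots r 1)

lemma class_card {N r : ℕ} (hr : 0 < r) (hc : Nat.Coprime r N) (c : F) :
    2 * ((UU F r).filter (fun z => (z⁻¹ - 1) ^ N = c)).card ≤ r := by
  set K := (UU F r).filter (fun z => (z⁻¹ - 1) ^ N = c) with hK
  have h1 : (K.image (fun z => z⁻¹)).card = K.card := card_image_of_injective _ inv_injective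
  have h2 := card_union_add_card_inter K (K.image (fun z => z⁻¹))
  have h3 : K ∪ K.image (fun z => z⁻¹) ⊆ UU F r := by
    intro z hz
    rcases mem_union.1 hz with h | h
    · exact (mem_filter.1 h).1
    · obtain ⟨w, hw, rfl⟩ := mem_image.1 h
      exact inv_mem_UU hr (mem_filter.1 hw).1
  have h4 : K ∩ K.image (fun z => z⁻¹) ⊆ {-1} := by
    intro z hz
    obtain ⟨a1, a2⟩ := mem_inter.1 hz
    obtain ⟨w, hw, rfl⟩ := mem_image.1 a2
    obtain ⟨b1, b2⟩ := mem_filter.1 a1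
    obtain ⟨b3, b4⟩ := mem_filter.1 hw
    have w0 := UU_ne_zero hr b3
    obtain ⟨b5, b6⟩ := (mem_UU hr).1 b1
    rw [inv_inv] at b2
    have e : w - 1 = (-w) * (w⁻¹ - 1) := by field_simp; ring
    have e2 : (-w) ^ N = 1 := by
      apply mul_right_cancel₀ (pow_ne_zero N (sub_ne_zero.2 b6))
      rw [← mul_pow, ← e, one_mul, b2, b4]
    have e3 : w⁻¹ * w⁻¹ = 1 := by
      apply eq_one_of_cop hc
      · rw [mul_pow, b5, mul_one]
      · rw [← mul_inv, ← neg_mul_neg, inv_pow, mul_pow, e2, mul_one, inv_one]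
    exact mem_singleton.2 ((mul_self_eq_one_iff.1 e3).resolve_left b6)
  have h5 := card_le_card h3
  have h6 := card_le_card h4
  have h7 := card_UU_le (F := F) hr
  rw [card_singleton] at h6
  omega

lemma exc_card {N r : ℕ} (hN : 0 < N) (hr : 0 < r) (hc : Nat.Coprime r N) (bad : F)
    (h : ∀ U ∈ UU F N, U ≠ bad → ∃ W ∈ UU F N, W ^ r = (1 - U) ^ r ∧ (1 - W) ^ r = U ^ r) :
    2 * (((UU F N).erase bad).filter (fun U => (1 - U) ^ N ≠ 1)).card + r ≤ r * r := by
  choose! W hW1 hW2 hW3 using h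
  set E := ((UU F N).erase bad).filter (fun U => (1 - U) ^ N ≠ 1) with hE
  let K : F → Finset F := fun ζ => (UU F r).filter (fun z => (z⁻¹ - 1) ^ N = (ζ⁻¹ - 1) ^ N)
  have facts : ∀ U ∈ E, ∃ ζ ζ' : F, ζ = W U / (1 - U) ∧ ζ' = U / (1 - W U) ∧ ζ ∈ UU F r ∧
      ζ' ∈ K ζ ∧ ζ * ζ' ≠ 1 ∧ U * (1 - ζ * ζ') = ζ' * (1 - ζ) := by
    intro U hU
    obtain ⟨a1, a2⟩ := mem_filter.1 hU
    obtain ⟨a3, a4⟩ := mem_erase.1 a1
    have b1 := hW1 U a4 a3
    have b2 := hW2 U a4 a3
    have b3 := hW3 U a4 a3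
    have U0 := UU_ne_zero hN a4
    have W0 := UU_ne_zero hN b1
    obtain ⟨U1, U2⟩ := (mem_UU hN).1 a4
    obtain ⟨W1, W2⟩ := (mem_UU hN).1 b1
    have U3 : 1 - U ≠ 0 := sub_ne_zero.2 U2.symm
    have W3 : 1 - W U ≠ 0 := sub_ne_zero.2 W2.symm
    set V := W U
    set ζ := V / (1 - U) with hζ
    set ζ' := U / (1 - V) with hζ'
    have c1 : ζ * (1 - U) = V := div_mul_cancel₀ _ U3
    have c2 : ζ' * (1 - V) = U := div_mul_cancel₀ _ W3
    have z0 : ζ ≠ 0 := div_ne_zero W0 U3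
    have z0' : ζ' ≠ 0 := div_ne_zero U0 W3
    have z1 : ζ ≠ 1 := by
      intro hh
      rw [hh, one_mul] at c1
      exact a2 (by rw [c1, W1])
    have c3 : U * (1 - ζ * ζ') = ζ' * (1 - ζ) := by linear_combination -c2 + ζ' * c1
    have z1' : ζ' ≠ 1 := by
      intro hh
      rw [hh, one_mul] at c2
      apply z1
      apply mul_right_cancel₀ U3
      linear_combination c1 - c2
    have c4 : U * (ζ'⁻¹ - 1) = V * (ζ⁻¹ - 1) := by
      field_simp
      linear_combination -ζ * c2 + ζ' * c1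
    refine ⟨ζ, ζ', rfl, rfl, (mem_UU hr).2 ⟨?_, z1⟩, mem_filter.2 ⟨(mem_UU hr).2 ⟨?_, z1'⟩, ?_⟩,
      fun hh => ?_, c3⟩
    · rw [hζ, div_pow, b2, div_self (pow_ne_zero _ U3)]
    · rw [hζ', div_pow, ← b3, div_self (pow_ne_zero _ W3)]
    · have := congrArg (fun t => t ^ N) c4
      simp only [mul_pow, U1, W1, one_mul] at this
      exact this
    · rw [hh, sub_self, mul_zero] at c3
      exact mul_ne_zero z0' (sub_ne_zero.2 z1.symm) c3.symm
  have h1 : E.card ≤ ((UU F r).sigma K).card := by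
    apply card_le_card_of_injOn (fun U => (⟨W U / (1 - U), U / (1 - W U)⟩ : Σ _ : F, F))
    · intro U hU
      obtain ⟨ζ, ζ', rfl, rfl, a1, a2, -⟩ := facts U hU
      exact mem_coe.2 (mem_sigma.2 ⟨a1, a2⟩)
    · intro U hU U' hU' e
      obtain ⟨ζ, ζ', e1, e2, -, -, a1, a2⟩ := facts U hU
      obtain ⟨ξ, ξ', e3, e4, -, -, -, a4⟩ := facts U' hU'
      simp only [Sigma.mk.injEq, heq_eq_eq] at e
      rw [← e1, ← e2, ← e3, ← e4] at e
      rw [← e.1, ← e.2] at a4
      exact mul_right_cancel₀ (sub_ne_zero.2 a1.symm) (a2.trans a4.symm)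
  rw [card_sigma] at h1
  have h2 : 2 * ∑ ζ ∈ UU F r, (K ζ).card ≤ (UU F r).card * r := by
    rw [mul_sum, ← smul_eq_mul (UU F r).card, ← sum_const]
    exact sum_le_sum (fun ζ _ => class_card hr hc _)
  have h3 := Nat.mul_le_mul_right r (card_UU_le (F := F) hr)
  rw [add_mul, one_mul] at h3
  omega

/-- more than half of the solutions of `x + y = 1` in roots of unity give all of them -/
lemma additive {N : ℕ} (hN : 0 < N) (hF : (N : F) + 1 = 0) (T : Finset F)
    (hT : ∀ U ∈ T, U ^ N = 1 ∧ (1 - U) ^ N = 1) (hc : N + 1 < 2 * (T.card + 1)) (z : F) :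
    (1 - z) ^ (N + 1) = 1 - z ^ (N + 1) := by
  obtain ⟨p, hp⟩ := CharP.exists F
  have hpd : p ∣ N + 1 := (CharP.cast_eq_zero_iff F p _).1 (by push_cast; exact hF)
  have hp0 : p ≠ 0 := by
    rintro rfl
    have := Nat.eq_zero_of_zero_dvd hpd
    omega
  haveI : Fact p.Prime := ⟨(CharP.char_is_prime_or_zero F p).resolve_right hp0⟩
  obtain ⟨M, hM⟩ := hpd
  have hp2 : 2 ≤ p := (Fact.out : p.Prime).two_le
  have hM2 : 2 * M ≤ N + 1 := by rw [hM]; exact Nat.mul_le_mul_right _ hp2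
  let P : F[X] := (1 - X) ^ M - (1 - X ^ M)
  have ev : ∀ U : F, P.eval (U ^ p) = (1 - U) ^ (N + 1) - (1 - U ^ (N + 1)) := by
    intro U
    simp only [P, eval_sub, eval_pow, eval_X, eval_one]
    rw [hM, pow_mul, pow_mul, sub_pow_char (p := p), one_pow]
  have hP : P = 0 := by
    apply eq_zero_of_natDegree_lt_card_of_eval_eq_zero' _ ((insert 0 T).image (fun U => U ^ p))
    · intro V hV
      obtain ⟨U, hU, rfl⟩ := mem_image.1 hV
      rw [ev]
      rcases mem_insert.1 hU with rfl | hU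
      · simp
      · rw [pow_succ, pow_succ, (hT U hU).1, (hT U hU).2]; ring
    · rw [card_image_of_injective _ (f := fun U : F => U ^ p) (frobenius_inj F p), card_insert_of_notMem]
      · have : P.natDegree ≤ M := by
          refine (natDegree_sub_le _ _).trans (max_le (natDegree_pow_le.trans ?_) ?_)
          · have : (1 - X : F[X]).natDegree ≤ 1 := by
              refine (natDegree_sub_le _ _).trans (max_le (by simp) natDegree_X_le)
            calc M * (1 - X : F[X]).natDegree ≤ M * 1 := Nat.mul_le_mul_left _ this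
              _ = M := mul_one _
          · refine (natDegree_sub_le _ _).trans (max_le (by simp) (by simp))
        omega
      · intro h0
        exact ne_zero_of_pow hN (hT 0 h0).1 rfl
  have := ev z
  rw [hP, eval_zero] at this
  exact sub_eq_zero.1 this.symm

/-- the fixed points of an additive power map form a subfield -/
def fixField (k : ℕ) (hk : 0 < k) (h : ∀ z : F, (1 - z) ^ k = 1 - z ^ k) : Subfield F where
  carrier := {x | x ^ k = x}
  mul_mem' := by
    intro a b ha hb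
    simp only [Set.mem_ofPred_eq] at ha hb ⊢
    rw [mul_pow, ha, hb]
  one_mem' := by simp
  zero_mem' := by simp [hk.ne']
  inv_mem' := by
    intro a ha
    simp only [Set.mem_ofPred_eq] at ha ⊢
    rw [inv_pow, ha]
  neg_mem' := by
    intro a ha
    simp only [Set.mem_ofPred_eq] at ha ⊢
    have hm : (-1 : F) ^ k = -1 := by
      by_cases h2 : (2 : F) = 0
      · have : (-1 : F) = 1 := by linear_combination -h2
        rw [this, one_pow]
      · have e1 := h 2
        have e2 := h 2⁻¹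
        have e3 : (1 - 2⁻¹ : F) = 2⁻¹ := by field_simp; ring
        have e4 : (2 : F) ^ k * 2⁻¹ ^ k = 1 := by rw [← mul_pow, mul_inv_cancel₀ h2, one_pow]
        rw [e3] at e2
        rw [show (1 - 2 : F) = -1 by ring] at e1
        linear_combination e1 + 2 ^ k * e2 - 2 * e4
    rw [neg_pow, hm, ha]
    ring
  add_mem' := by
    intro a b ha hb
    simp only [Set.mem_ofPred_eq] at ha hb ⊢
    have hm : (-1 : F) ^ k = -1 := by
      by_cases h2 : (2 : F) = 0
      · have : (-1 : F) = 1 := by linear_combination -h2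
        rw [this, one_pow]
      · have e1 := h 2
        have e2 := h 2⁻¹
        have e3 : (1 - 2⁻¹ : F) = 2⁻¹ := by field_simp; ring
        have e4 : (2 : F) ^ k * 2⁻¹ ^ k = 1 := by rw [← mul_pow, mul_inv_cancel₀ h2, one_pow]
        rw [e3] at e2
        rw [show (1 - 2 : F) = -1 by ring] at e1
        linear_combination e1 + 2 ^ k * e2 - 2 * e4
    by_cases a0 : a = 0
    · rw [a0, zero_add, hb]
    · have e : a + b = a * (1 - (-1) * (b * a⁻¹)) := by field_simp; ring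
      rw [e, mul_pow, h, mul_pow, mul_pow, inv_pow, ha, hb, hm]

end Pool.Agent.MP_dcfa1b_co.Sq

end

section

set_option autoImplicit false
open Polynomial Finset

namespace Pool.Agent.MP_dcfa1b_co.Sq

lemma mod_two (N x : ℕ) (hx : x < 2 * N) : (x % N = x ∧ x < N) ∨ (x % N + N = x ∧ N ≤ x) := by
  by_cases h : x < N
  · left; exact ⟨Nat.mod_eq_of_lt h, h⟩
  · right
    refine ⟨?_, by omega⟩
    rw [Nat.mod_eq_sub_mod (by omega), Nat.mod_eq_of_lt (by omega)]
    omega

lemma shift (N i j k l : ℕ) (hi : i < N) (hj : j < N) (hk : k < N) (hl : l < N)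
    (h : i + l ≡ k + j [MOD N]) (hne : ¬ (l = i ∧ k = j)) :
    ∃ s : ℕ, (((i + s) % N : ℕ) : ℤ) - (((j + s) % N : ℕ) : ℤ) =
      (((k + s) % N : ℕ) : ℤ) - (((l + s) % N : ℕ) : ℤ) := by
  have h1 := mod_two N (i + l) (by omega)
  have h2 := mod_two N (k + j) (by omega)
  unfold Nat.ModEq at h
  have key : ∀ y, y ≤ N → (i + l = k + j ∧ y = N ∨
      (i + l = k + j + N ∧ ((j < y ∧ y ≤ i ∧ (y ≤ k ∨ l < y)) ∨ (k < y ∧ y ≤ l ∧ (y ≤ j ∨ i < y)))) ∨
      (i + l + N = k + j ∧ ((i < y ∧ y ≤ j ∧ (y ≤ l ∨ k < y)) ∨ (l < y ∧ y ≤ k ∧ (y ≤ i ∨ j < y))))) →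
      ∃ s : ℕ, (((i + s) % N : ℕ) : ℤ) - (((j + s) % N : ℕ) : ℤ) =
        (((k + s) % N : ℕ) : ℤ) - (((l + s) % N : ℕ) : ℤ) := by
    intro y hy hc
    refine ⟨N - y, ?_⟩
    have a1 := mod_two N (i + (N - y)) (by omega)
    have a2 := mod_two N (j + (N - y)) (by omega)
    have a3 := mod_two N (k + (N - y)) (by omega)
    have a4 := mod_two N (l + (N - y)) (by omega)
    generalize (i + (N - y)) % N = b1 at *
    generalize (j + (N - y)) % N = b2 at *
    generalize (k + (N - y)) % N = b3 at *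
    generalize (l + (N - y)) % N = b4 at *
    clear h h1 h2 hne
    rcases hc with hc | ⟨hc, hc2 | hc2⟩ | ⟨hc, hc2 | hc2⟩ <;> omega
  have h3 : i + l = k + j ∨ i + l = k + j + N ∨ i + l + N = k + j := by omega
  clear h h1 h2
  rcases h3 with h3 | h3 | h3
  · exact key N le_rfl (Or.inl ⟨h3, rfl⟩)
  · rcases lt_trichotomy i l with c | c | c
    · exact key l (by omega) (Or.inr (Or.inl ⟨h3, by omega⟩))
    · rcases lt_trichotomy j k with c' | c' | c'
      · exact key k (by omega) (Or.inr (Or.inl ⟨h3, by omega⟩))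
      · omega
      · exact key j (by omega) (Or.inr (Or.inl ⟨h3, by omega⟩))
    · exact key i (by omega) (Or.inr (Or.inl ⟨h3, by omega⟩))
  · rcases lt_trichotomy j k with c | c | c
    · exact key k (by omega) (Or.inr (Or.inr ⟨h3, by omega⟩))
    · rcases lt_trichotomy i l with c' | c' | c'
      · exact key l (by omega) (Or.inr (Or.inr ⟨h3, by omega⟩))
      · omega
      · exact key i (by omega) (Or.inr (Or.inr ⟨h3, by omega⟩))
    · exact key j (by omega) (Or.inr (Or.inr ⟨h3, by omega⟩))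

variable {F : Type*} [Field F] [DecidableEq F]

lemma exists_log (n : ℕ) (α : F) (hα : orderOf α = n + 1) (x : F) (hx : x ∈ UU F (n + 1)) :
    ∃ i : Fin n, α ^ ((i : ℕ) + 1) = x := by
  have hp : IsPrimitiveRoot α (n + 1) := hα ▸ IsPrimitiveRoot.orderOf α
  obtain ⟨x1, x2⟩ := (mem_UU n.succ_pos).1 hx
  obtain ⟨m, hm, rfl⟩ := hp.eq_pow_of_pow_eq_one x1
  rcases m with _ | m
  · simp at x2
  · exact ⟨⟨m, by omega⟩, rfl⟩

lemma pow_mem_UU (n : ℕ) (α : F) (hα : orderOf α = n + 1) (i : Fin n) :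
    α ^ ((i : ℕ) + 1) ∈ UU F (n + 1) := by
  refine (mem_UU n.succ_pos).2 ⟨?_, fun hh => ?_⟩
  · rw [pow_right_comm, Nat.succ_eq_add_one, ← hα, pow_orderOf_eq_one, one_pow]
  · have := Nat.le_of_dvd (by omega) (orderOf_dvd_of_pow_eq_one hh)
    have := i.2
    omega

lemma sd_of_shift (n : ℕ) (f : Equiv.Perm (Fin n))
    (hS : ∀ s t : ℕ, ∀ i j k l : Fin n, i ≠ j → k ≠ l →
        (((((i : ℕ) + 1 + s) % (n + 1) : ℕ) : ℤ) - ((((j : ℕ) + 1 + s) % (n + 1) : ℕ) : ℤ)
            = ((((k : ℕ) + 1 + s) % (n + 1) : ℕ) : ℤ) - ((((l : ℕ) + 1 + s) % (n + 1) : ℕ) : ℤ) ∧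
         ((((f i : ℕ) + 1 + t) % (n + 1) : ℕ) : ℤ) - ((((f j : ℕ) + 1 + t) % (n + 1) : ℕ) : ℤ)
            = ((((f k : ℕ) + 1 + t) % (n + 1) : ℕ) : ℤ) - ((((f l : ℕ) + 1 + t) % (n + 1) : ℕ) : ℤ)) →
        i = k ∧ j = l)
    (α β : F) (hα : orderOf α = n + 1) (hβ : orderOf β = n + 1)
    (φ : F → F) (hφ : ∀ i : Fin n, φ (α ^ ((i : ℕ) + 1)) = β ^ ((f i : ℕ) + 1)) :
    Sd (n + 1) φ := by
  have fα : IsOfFinOrder α := orderOf_pos_iff.1 (by omega)
  have fβ : IsOfFinOrder β := orderOf_pos_iff.1 (by omega)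
  refine ⟨fun x hx => ?_, fun x hx y hy hxy => ?_, fun a ha b hb c hc d hd hab e1 e2 => ?_⟩
  · obtain ⟨i, rfl⟩ := exists_log n α hα x hx
    rw [hφ]
    exact pow_mem_UU n β hβ _
  · obtain ⟨i, rfl⟩ := exists_log n α hα x hx
    obtain ⟨j, rfl⟩ := exists_log n α hα y hy
    rw [hφ, hφ] at hxy
    have a1 := (f i).2
    have a2 := (f j).2
    have := pow_injOn_Iio_orderOf (x := β) (by simp only [Set.mem_Iio]; omega)
      (by simp only [Set.mem_Iio]; omega) hxy
    have : f i = f j := Fin.ext (by omega)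
    rw [f.injective this]
  · have d0 := UU_ne_zero n.succ_pos hd
    obtain ⟨i, rfl⟩ := exists_log n α hα a ha
    obtain ⟨j, rfl⟩ := exists_log n α hα b hb
    obtain ⟨k, rfl⟩ := exists_log n α hα c hc
    obtain ⟨l, rfl⟩ := exists_log n α hα d hd
    have hij : i ≠ j := by
      rintro rfl
      exact hab rfl
    have hkl : k ≠ l := by
      rintro rfl
      exact hab (mul_right_cancel₀ d0 (e1.trans (mul_comm _ _)))
    by_cases hex : l = i ∧ k = j
    · right
      rw [hex.1, hex.2]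
      exact ⟨rfl, rfl⟩
    left
    have m1 : ((i : ℕ) + 1) + ((l : ℕ) + 1) ≡ ((k : ℕ) + 1) + ((j : ℕ) + 1) [MOD n + 1] := by
      rw [← hα, ← fα.pow_eq_pow_iff_modEq, pow_add α (i + 1), pow_add α (k + 1), e1]
    have m2 : ((f i : ℕ) + 1) + ((f l : ℕ) + 1) ≡ ((f k : ℕ) + 1) + ((f j : ℕ) + 1) [MOD n + 1] := by
      rw [← hβ, ← fβ.pow_eq_pow_iff_modEq, pow_add β (f i + 1), pow_add β (f k + 1), ← hφ, ← hφ,
        ← hφ, ← hφ, e2]
    obtain ⟨s, hs⟩ := shift (n + 1) _ _ _ _ (by omega) (by omega) (by omega) (by omega) m1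
      (fun hh => hex ⟨Fin.ext (by omega), Fin.ext (by omega)⟩)
    obtain ⟨t, ht⟩ := shift (n + 1) _ _ _ _ (by omega) (by omega) (by omega) (by omega) m2
      (fun hh => hex ⟨f.injective (Fin.ext (by omega)), f.injective (Fin.ext (by omega))⟩)
    rw [(hS s t i j k l hij hkl ⟨hs, ht⟩).1]

lemma shape [IsAlgClosed F] {N : ℕ} {ω : F} (hω : IsPrimitiveRoot ω N) (φ : F[X])
    (h : Sd N (fun x => φ.eval x)) (hd : φ.natDegree ^ 2 + 3 < N) :
    ∃ g r : ℕ, Nat.Coprime g N ∧ Nat.Coprime r N ∧ φ = (1 - X ^ g) ^ r ∧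
      ∀ z : F, (1 - z) ^ (N + 1) = 1 - z ^ (N + 1) := by
  have hN : 0 < N := by omega
  have hd2 : 2 * φ.natDegree + 2 < N := by nlinarith [sq_nonneg ((φ.natDegree : ℤ) - 1)]
  have hd1 := deg_pos (by omega) hω φ h
  obtain ⟨hF, h1, -, -⟩ := stepA hω φ h hd2
  obtain ⟨bad, hbad⟩ := stepC hω φ h hd2
  have cU := card_UU hN hω
  have hsq : φ.natDegree ^ 2 = φ.natDegree * φ.natDegree := sq _
  obtain ⟨g, r, hgr, hφ⟩ := stepE φ _ rfl hd1 h1 ((UU F N).erase bad)
    (by have := pred_card_le_card_erase (s := UU F N) (a := bad); omega)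
    (fun u hu => by
      obtain ⟨w, -, e⟩ := hbad u (mem_of_mem_erase hu) (mem_erase.1 hu).1
      exact ⟨w, e⟩)
  have hc := coprime_deg hω φ h hd2
  rw [hgr] at hc
  have hg := Nat.Coprime.coprime_mul_right hc
  have hr := Nat.Coprime.coprime_mul_left hc
  have hg0 : 0 < g := Nat.pos_of_ne_zero (by rintro rfl; omega)
  have hr0 : 0 < r := Nat.pos_of_ne_zero (by rintro rfl; omega)
  have ev : ∀ x : F, φ.eval x = (1 - x ^ g) ^ r := by
    intro x
    conv_lhs => rw [hφ]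
    simp
  have hE := exc_card hN hr0 hr (bad ^ g) (by
    intro U hU hUb
    obtain ⟨u, hu, rfl⟩ := pow_surj hN hg U hU
    obtain ⟨w, hw, e1, e2⟩ := hbad u hu (fun hh => hUb (by rw [hh]))
    obtain ⟨w1, w2⟩ := (mem_UU hN).1 hw
    refine ⟨w ^ g, (mem_UU hN).2 ⟨by rw [pow_right_comm, w1, one_pow],
      fun hh => w2 (eq_one_of_cop hg hh w1)⟩, ?_, ?_⟩
    · rw [← pow_mul, ← hgr, e1, ev]
    · rw [← pow_mul, ← hgr, ← e2, ev])
  refine ⟨g, r, hg, hr, hφ, additive hN hF
    (((UU F N).erase (bad ^ g)).filter (fun U => (1 - U) ^ N = 1)) (fun U hU => ?_) ?_⟩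
  · obtain ⟨a1, a2⟩ := mem_filter.1 hU
    exact ⟨((mem_UU hN).1 (mem_of_mem_erase a1)).1, a2⟩
  · have b1 := card_filter_add_card_filter_not (s := (UU F N).erase (bad ^ g))
      (fun U => (1 - U) ^ N = 1)
    have b2 := pred_card_le_card_erase (s := UU F N) (a := bad ^ g)
    have b3 : r ≤ φ.natDegree := by rw [hgr]; exact Nat.le_mul_of_pos_left _ hg0
    have b4 := Nat.mul_le_mul b3 b3
    simp only [ne_eq] at hE
    omega

lemma golomb_shape {F : Type} [Field F] [DecidableEq F] (n : ℕ) (f : Equiv.Perm (Fin n))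
    (α β : F) (hα : orderOf α = n + 1) (hβ : orderOf β = n + 1) (φ : F[X]) (hn : 0 < n)
    (hφ : ∀ i : Fin n, φ.eval (α ^ ((i : ℕ) + 1)) = β ^ ((f i : ℕ) + 1))
    (g r : ℕ) (hg : Nat.Coprime g (n + 1)) (hr : Nat.Coprime r (n + 1))
    (e : φ = (1 - X ^ g) ^ r) (hadd : ∀ z : F, (1 - z) ^ (n + 1 + 1) = 1 - z ^ (n + 1 + 1)) :
    ∃ (K : Type) (_ : Field K) (_ : Fintype K), Fintype.card K = n + 2 ∧
      ∃ a b : K, orderOf a = n + 1 ∧ orderOf b = n + 1 ∧
        ∀ i : Fin n, a ^ ((i : ℕ) + 1) + b ^ ((f i : ℕ) + 1) = 1 := by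
  have hp : IsPrimitiveRoot α (n + 1) := hα ▸ IsPrimitiveRoot.orderOf α
  have hN : 0 < n + 1 := n.succ_pos
  have ev : ∀ x : F, φ.eval x = (1 - x ^ g) ^ r := by
    intro x
    conv_lhs => rw [e]
    simp
  let K := fixField (n + 1 + 1) (by omega) hadd
  have hK : ∀ x : F, x ∈ insert (0 : F) (mu F (n + 1)) ↔ x ∈ K := by
    intro x
    change _ ↔ x ^ (n + 1 + 1) = x
    rw [mem_insert, mem_mu hN, pow_succ _ (n + 1)]
    constructor
    · rintro (rfl | h1)
      · simp
      · rw [h1, one_mul]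
    · intro h1
      by_cases x0 : x = 0
      · exact Or.inl x0
      · exact Or.inr (mul_right_cancel₀ x0 (by rw [h1, one_mul]))
  have hK' : ∀ x : F, x ^ (n + 1) = 1 → x ∈ K := fun x hx =>
    (hK x).1 (mem_insert_of_mem ((mem_mu hN).2 hx))
  have hαN : α ^ (n + 1) = 1 := hp.pow_eq_one
  have hβU : β ∈ UU F (n + 1) := by
    simpa using pow_mem_UU n β hβ ⟨0, by omega⟩
  obtain ⟨b, hb, hbr⟩ := pow_surj hN hr β hβU
  have hbN := ((mem_UU hN).1 hb).1
  refine ⟨K, inferInstance, Fintype.subtype _ hK, ?_,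
    ⟨α ^ g, hK' _ (by rw [pow_right_comm, hαN, one_pow])⟩, ⟨b, hK' _ hbN⟩, ?_, ?_, fun i => ?_⟩
  · rw [Fintype.subtype_card, card_insert_of_notMem, card_mu hp]
    intro h0
    exact ne_zero_of_pow hN ((mem_mu hN).1 h0) rfl
  · rw [← orderOf_injective K.subtype.toMonoidHom Subtype.val_injective]
    change orderOf (α ^ g) = _
    rw [Nat.Coprime.orderOf_pow (by rw [hα]; exact hg.symm), hα]
  · rw [← orderOf_injective K.subtype.toMonoidHom Subtype.val_injective]
    change orderOf b = _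
    apply Nat.dvd_antisymm (orderOf_dvd_of_pow_eq_one hbN)
    rw [← hβ, ← hbr]
    exact orderOf_pow_dvd r
  · apply Subtype.ext
    change (α ^ g) ^ ((i : ℕ) + 1) + b ^ ((f i : ℕ) + 1) = 1
    set U := (α ^ g) ^ ((i : ℕ) + 1) with hU
    set V := b ^ ((f i : ℕ) + 1) with hV
    have V1 : V ^ (n + 1) = 1 := by rw [hV, pow_right_comm, hbN, one_pow]
    have V0 := ne_zero_of_pow hN V1
    have e1 : (1 - U) ^ r = V ^ r := by
      rw [hU, hV, pow_right_comm α, ← ev, hφ, pow_right_comm b, hbr]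
    have U1 : U ^ (n + 1) = 1 := by
      rw [hU, pow_right_comm, pow_right_comm α, hαN, one_pow, one_pow]
    have U2 : U ≠ 1 := by
      intro hh
      rw [hU, pow_right_comm] at hh
      have := (mem_UU hN).1 (pow_mem_UU n α hα i)
      exact this.2 (eq_one_of_cop hg hh this.1)
    have e2 : (1 - U) ^ (n + 1) = 1 := by
      apply mul_right_cancel₀ (sub_ne_zero.2 U2.symm)
      rw [← pow_succ, hadd, pow_succ, U1, one_mul, one_mul]
    have e3 : (1 - U) / V = 1 := by
      apply eq_one_of_cop hr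
      · rw [div_pow, e1, div_self (pow_ne_zero _ V0)]
      · rw [div_pow, e2, V1, div_one]
    rw [div_eq_one_iff_eq V0] at e3
    linear_combination -e3

lemma golomb_closed {F : Type} [Field F] [IsAlgClosed F] (n : ℕ) (f : Equiv.Perm (Fin n))
    (α β : F) (hα : orderOf α = n + 1) (hβ : orderOf β = n + 1) (φ : F[X])
    (hd : φ.natDegree ^ 2 + 2 < n)
    (hφ : ∀ i : Fin n, φ.eval (α ^ ((i : ℕ) + 1)) = β ^ ((f i : ℕ) + 1))
    [DecidableEq F] (h : Sd (n + 1) (fun x => φ.eval x)) :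
    ∃ (K : Type) (_ : Field K) (_ : Fintype K), Fintype.card K = n + 2 ∧
      ∃ a b : K, orderOf a = n + 1 ∧ orderOf b = n + 1 ∧
        ∀ i : Fin n, a ^ ((i : ℕ) + 1) + b ^ ((f i : ℕ) + 1) = 1 := by
  have hp : IsPrimitiveRoot α (n + 1) := hα ▸ IsPrimitiveRoot.orderOf α
  obtain ⟨g, r, hg, hr, e, hadd⟩ := shape hp φ h (by omega)
  exact golomb_shape n f α β hα hβ φ (by omega) hφ g r hg hr e hadd

end Pool.Agent.MP_dcfa1b_co.Sq

end
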