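import Pool.Agent.Mg.Fdcfa1bb.G436428

set_option autoImplicit false
open Polynomial Finset

namespace Pool.Agent.MP_dcfa1b_co.Sq

variable {F : Type*} [Field F] [DecidableEq F]

lemma row_pow {N : ℕ} {ω : F} (hω : IsPrimitiveRoot ω N) (φ : F[X])
    (h : Sd N (fun x => φ.eval x)) (hd : 2 * φ.natDegree + 2 < N) (a : F) (ha : a ∈ UU F N)
    (ha2 : a ≠ -1) (k : ℕ) (hk : ¬ N ∣ k) :
    ∑ x ∈ (UU F N).erase a⁻¹, (φ.eval (a * x) * (φ.eval x)⁻¹) ^ k =
      -1 - (a ^ φ.natDegree) ^ k := by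
  have hN : 0 < N := by omega
  obtain ⟨g, hg0, hg1, -, hg3, hg4⟩ := h.missing hN hω a ha ha2
  have e := (stepA hω φ h hd).2.2.2 a (UU_ne_zero hN ha)
  have hg : g = a ^ φ.natDegree := by
    apply mul_right_cancel₀ (UU_ne_zero hN (h.maps _ (inv_mem_UU hN ha)))
    rw [hg1, e]
  have hne : ∀ x ∈ UU F N, φ.eval x ≠ 0 := fun x hx => UU_ne_zero hN (h.maps x hx)
  have him : (UU F N).erase g ⊆
      ((UU F N).erase a⁻¹).image (fun x => φ.eval (a * x) * (φ.eval x)⁻¹) := by
    intro b hb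
    obtain ⟨x, hx, e2⟩ := hg4 b (mem_of_mem_erase hb) (mem_erase.1 hb).1
    refine mem_image.2 ⟨x, hx, ?_⟩
    rw [e2, mul_assoc, mul_inv_cancel₀ (hne x (mem_of_mem_erase hx)), mul_one]
  have c1 := card_erase_add_one hg0
  have c2 := card_erase_add_one (inv_mem_UU hN ha)
  have c3 := card_image_le (s := (UU F N).erase a⁻¹)
    (f := fun x => φ.eval (a * x) * (φ.eval x)⁻¹)
  have c4 := card_le_card him
  have heq := eq_of_subset_of_card_le him (by omega)
  have hinj := injOn_of_card_image_eq (s := (UU F N).erase a⁻¹)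
    (f := fun x => φ.eval (a * x) * (φ.eval x)⁻¹) (by omega)
  have s1 := sum_UU_pow hN hω k hk
  rw [← add_sum_erase _ _ hg0, heq, sum_image hinj, hg] at s1
  linear_combination s1

omit [DecidableEq F] in
lemma geom_mu {N : ℕ} {z : F} (hz : z ^ N = 1) (h1 : z ≠ 1) : ∑ i ∈ range N, z ^ i = 0 := by
  rw [geom_sum_eq h1, hz, sub_self, zero_div]

/-- if a power of `φ` of degree below `N - 2` has no vanishing coefficient, then
`φ` divides `X ^ (N + 1) - 1` -/
lemma dense_dvd {N : ℕ} {ω : F} (hω : IsPrimitiveRoot ω N) (φ : F[X])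
    (h : Sd N (fun x => φ.eval x)) (hd : 2 * φ.natDegree + 2 < N) (k : ℕ) (hk : 0 < k)
    (hkd : k * φ.natDegree + 2 < N)
    (hc : ∀ j, 0 < j → j < k * φ.natDegree → (φ ^ k).coeff j ≠ 0) :
    φ ∣ X ^ (N + 1) - 1 := by
  have hN : 0 < N := by omega
  have hd1 := deg_pos (by omega) hω φ h
  obtain ⟨hF, h1, h0, -⟩ := stepA hω φ h hd
  have hne : ∀ x ∈ UU F N, φ.eval x ≠ 0 := fun x hx => UU_ne_zero hN (h.maps x hx)
  set d := φ.natDegree with hdd
  have hkk : k ≤ k * d := Nat.le_mul_of_pos_right _ hd1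
  have hΦ : (φ ^ k).natDegree = k * d := natDegree_pow _ _
  let S : ℕ → F := fun j => ∑ x ∈ UU F N, x ^ j * (φ.eval x)⁻¹ ^ k
  let Q : F[X] := ∑ x ∈ UU F N, C ((φ.eval x)⁻¹ ^ k) * (φ ^ k).comp (C x * X)
  have hQc : ∀ j, Q.coeff j = (φ ^ k).coeff j * S j := by
    intro j
    simp only [Q, S, finset_sum_coeff, coeff_C_mul, comp_C_mul_X_coeff, mul_sum]
    exact sum_congr rfl (fun x _ => by ring)
  have hQ : Q = -1 - X ^ (k * d) := by
    apply eq_of_natDegree_lt_card_of_eval_eq' _ _ ((UU F N).erase (-1))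
    · intro a ha
      obtain ⟨a2, aU⟩ := mem_erase.1 ha
      have e := row_pow hω φ h hd a aU a2 k
        (fun hh => by have := Nat.le_of_dvd hk hh; omega)
      have a0 := UU_ne_zero hN aU
      simp only [Q, eval_finset_sum, eval_mul, eval_C, eval_comp, eval_X, eval_pow, eval_sub,
        eval_neg, eval_one]
      rw [← add_sum_erase _ _ (inv_mem_UU hN aU), inv_mul_cancel₀ a0, h1, zero_pow hk.ne',
        mul_zero, zero_add, mul_comm k d, pow_mul, ← e]
      exact sum_congr rfl (fun x _ => by rw [mul_comm x a, mul_pow, mul_comm])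
    · have c1 : Q.natDegree ≤ k * d := by
        rw [natDegree_le_iff_coeff_eq_zero]
        intro j hj
        rw [hQc, coeff_eq_zero_of_natDegree_lt (by omega), zero_mul]
      have c2 : (-1 - X ^ (k * d) : F[X]).natDegree ≤ k * d :=
        (natDegree_sub_le _ _).trans (max_le (by simp) (by simp))
      have c4 := pred_card_le_card_erase (s := UU F N) (a := -1)
      have c5 := card_UU hN hω
      omega
  have hS : ∀ j, 0 < j → j < k * d → S j = 0 := by
    intro j j0 j1
    have e := hQc j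
    rw [hQ, coeff_sub, coeff_neg, coeff_one, coeff_X_pow, if_neg (by omega), if_neg (by omega)] at e
    exact (mul_eq_zero.1 (by linear_combination -e)).resolve_left (hc j j0 j1)
  have hS0 : S N = -1 := by
    have e := hQc 0
    rw [hQ, coeff_sub, coeff_neg, coeff_one, coeff_X_pow, if_pos rfl, if_neg (by omega),
      coeff_zero_eq_eval_zero, eval_pow, h0] at e
    have e2 : S N = S 0 := sum_congr rfl (fun x hx => by rw [((mem_UU hN).1 hx).1, pow_zero])
    rw [e2]
    linear_combination -e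
  have hSe : (φ ^ k).coeff (k * d) * S (k * d) = -1 := by
    have e := hQc (k * d)
    rw [hQ, coeff_sub, coeff_neg, coeff_one, coeff_X_pow, if_neg (by omega), if_pos rfl] at e
    linear_combination -e
  let ψ : F[X] := ∑ i ∈ range N, monomial i (-S (N - i))
  have hψc : ∀ i, ψ.coeff i = if i < N then -S (N - i) else 0 := by
    intro i
    simp only [ψ, finset_sum_coeff, coeff_monomial, sum_ite_eq', mem_range]
  have hψd : ψ.natDegree ≤ N - k * d := by
    rw [natDegree_le_iff_coeff_eq_zero]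
    intro j hj
    rw [hψc]
    split_ifs with hh
    · rw [hS _ (by omega) (by omega), neg_zero]
    · rfl
  have hψe : ∀ y ∈ UU F N, ψ.eval y = (φ.eval y)⁻¹ ^ k := by
    intro y hy
    have e1 : ψ.eval y = -∑ x ∈ UU F N, (φ.eval x)⁻¹ ^ k * ∑ i ∈ range N, (y * x⁻¹) ^ i := by
      simp only [ψ, S, eval_finset_sum, eval_monomial, neg_mul, sum_neg_distrib, sum_mul, mul_sum]
      rw [sum_comm]
      refine congrArg Neg.neg (sum_congr rfl (fun x hx => sum_congr rfl (fun i hi => ?_)))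
      have x0 := UU_ne_zero hN hx
      rw [pow_sub₀ _ x0 (mem_range.1 hi).le, ((mem_UU hN).1 hx).1, mul_pow, inv_pow x]
      ring
    rw [e1, sum_eq_single y]
    · rw [mul_inv_cancel₀ (UU_ne_zero hN hy)]
      simp only [one_pow, sum_const, card_range, nsmul_eq_mul, mul_one]
      linear_combination -(φ.eval y)⁻¹ ^ k * hF
    · intro x hx hxy
      rw [geom_mu, mul_zero]
      · rw [mul_pow, inv_pow, ((mem_UU hN).1 hx).1, ((mem_UU hN).1 hy).1, inv_one, mul_one]
      · intro hh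
        exact hxy ((mul_inv_eq_one₀ (UU_ne_zero hN hx)).1 hh).symm
    · intro hh
      exact absurd hy hh
  have hP : (X - 1) * φ ^ k * ψ - (X ^ (N + 1) - 1) = 0 := by
    apply eq_zero_of_natDegree_lt_card_of_eval_eq_zero' _ (insert 0 (mu F N))
    · intro y hy
      simp only [eval_sub, eval_mul, eval_pow, eval_X, eval_one]
      rcases mem_insert.1 hy with rfl | hy
      · rw [h0, ← coeff_zero_eq_eval_zero, hψc, if_pos hN, Nat.sub_zero, hS0]
        simp
      · by_cases y1 : y = 1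
        · simp [y1]
        · have yU : y ∈ UU F N := mem_erase.2 ⟨y1, hy⟩
          rw [hψe y yU, mul_assoc, ← mul_pow, mul_inv_cancel₀ (hne y yU), pow_succ,
            (mem_mu hN).1 hy]
          ring
    · rw [card_insert_of_notMem (fun hh => ne_zero_of_pow hN ((mem_mu hN).1 hh) rfl), card_mu hω]
      have c0 : (X - 1 : F[X]).natDegree ≤ 1 := by rw [← C_1, natDegree_X_sub_C]
      have c1 : ((X - 1) * φ ^ k).natDegree ≤ 1 + k * d := natDegree_mul_le.trans (by omega)
      have c2 : ((X - 1) * φ ^ k * ψ - (X ^ (N + 1) - 1)).natDegree ≤ N + 1 := by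
        refine (natDegree_sub_le _ _).trans (max_le (natDegree_mul_le.trans (by omega)) ?_)
        rw [← C_1, natDegree_X_pow_sub_C]
      have c3 : ((X - 1) * φ ^ k * ψ - (X ^ (N + 1) - 1)).coeff (N + 1) = 0 := by
        rw [coeff_sub]
        conv_lhs => rw [show N + 1 = (1 + k * d) + (N - k * d) by omega]
        rw [coeff_mul_add_eq_of_natDegree_le c1 hψd, coeff_mul_add_eq_of_natDegree_le c0 hΦ.le,
          hψc, if_pos (by omega), show N - (N - k * d) = k * d by omega, coeff_sub, coeff_sub,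
          coeff_X_one, coeff_X_pow, if_pos rfl, coeff_one, coeff_one, if_neg (by omega),
          if_neg (by omega)]
        linear_combination -hSe
      have := natDegree_le_pred c2 c3
      omega
  rw [← sub_eq_zero.1 hP]
  exact ((dvd_pow_self φ hk.ne').mul_left _).mul_right _

lemma golomb_dense {F : Type} [Field F] [DecidableEq F] (n : ℕ) (f : Equiv.Perm (Fin n))
    (hq : IsPrimePow (n + 2)) (α β : F) (hα : orderOf α = n + 1) (hβ : orderOf β = n + 1)
    (φ : F[X]) (hd : 2 * φ.natDegree + 1 < n)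
    (hφ : ∀ i : Fin n, φ.eval (α ^ ((i : ℕ) + 1)) = β ^ ((f i : ℕ) + 1))
    (h : Sd (n + 1) (fun x => φ.eval x)) (k : ℕ) (hk : 0 < k) (hkd : k * φ.natDegree + 1 < n)
    (hc : ∀ j, 0 < j → j < k * φ.natDegree → (φ ^ k).coeff j ≠ 0) :
    ∃ (K : Type) (_ : Field K) (_ : Fintype K), Fintype.card K = n + 2 ∧
      ∃ a b : K, orderOf a = n + 1 ∧ orderOf b = n + 1 ∧
        ∀ i : Fin n, a ^ ((i : ℕ) + 1) + b ^ ((f i : ℕ) + 1) = 1 := by
  have hp : IsPrimitiveRoot α (n + 1) := hα ▸ IsPrimitiveRoot.orderOf α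
  obtain ⟨hF, -, h0, -⟩ := stepA hp φ h (by omega)
  have hdv := dense_dvd hp φ h (by omega) k hk (by omega) hc
  obtain ⟨p, hpc⟩ := CharP.exists F
  have hpd : p ∣ n + 2 := (CharP.cast_eq_zero_iff F p _).1 (by push_cast at hF ⊢; linear_combination hF)
  have hp0 : p ≠ 0 := by
    rintro rfl
    have := Nat.eq_zero_of_zero_dvd hpd
    omega
  haveI : Fact p.Prime := ⟨(CharP.char_is_prime_or_zero F p).resolve_right hp0⟩
  obtain ⟨l, e, hl, -, hle⟩ := (isPrimePow_nat_iff _).1 hq
  have hpl : p = l := by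
    rw [← hle] at hpd
    exact (Nat.prime_dvd_prime_iff_eq Fact.out hl).1 ((Fact.out : p.Prime).dvd_of_dvd_pow hpd)
  subst hpl
  have e1 : (X ^ (n + 1 + 1) - 1 : F[X]) = (X - C 1) ^ (n + 2) := by
    rw [show n + 1 + 1 = n + 2 from rfl, ← hle, C_1, sub_pow_char_pow, one_pow]
  rw [e1] at hdv
  obtain ⟨i, -, u, hu⟩ := (dvd_prime_pow (prime_X_sub_C (1 : F)) _).1 hdv
  obtain ⟨t, ht1, ht2⟩ := Polynomial.isUnit_iff.1 u⁻¹.isUnit
  have e3 : φ = C t * (X - C 1) ^ i := by
    rw [← hu, ht2, mul_comm, mul_assoc, Units.mul_inv, mul_one]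
  have e4 : φ.natDegree = i := by
    rw [e3, natDegree_C_mul ht1.ne_zero, natDegree_pow, natDegree_X_sub_C, mul_one]
  have e5 : φ = (1 - X ^ 1) ^ i := by
    have b := congrArg (eval 0) e3
    simp only [h0, eval_mul, eval_C, eval_pow, eval_sub, eval_X, zero_sub] at b
    have b2 : ((-1 : F) ^ i) * (-1) ^ i = 1 := by rw [← mul_pow]; simp
    have b3 : t = (-1) ^ i := by linear_combination (-1) ^ i * b.symm - t * b2
    rw [e3, b3, C_pow, ← mul_pow]
    simp
  refine golomb_shape n f α β hα hβ φ (by omega) hφ 1 i (Nat.coprime_one_left _)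
    (e4 ▸ coprime_deg hp φ h (by omega)) e5 (fun z => ?_)
  rw [show n + 1 + 1 = n + 2 from rfl, ← hle, sub_pow_char_pow, one_pow]

end Pool.Agent.MP_dcfa1b_co.Sq
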